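import Pool.Agent.E8helper85.CT3.Lem
import Pool.Agent.Y703.CT.StmH
import Pool.Agent.Y155.CT.Act
import Pool.Agent.Y155.CT.Mwk
import Pool.Agent.Y692.CT.Desq

/-!
# Project CT3: the descent over `ℚ` and the torsion subgroup for the twists by `3 D`
-/

set_option autoImplicit false

open scoped Classical

namespace Pool.Agent.E8helper85.CT3

open WeierstrassCurve
open Pool.Agent.Y692.QS (Ei w nr)
open Pool.Agent.Y715.T.Gi Pool.Agent.Y715.T.Nr Pool.Agent.Y715.T.Df Pool.Agent.Y715.T.Ell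
open Pool.Agent.TH841.SH.D (Sha)
open Pool.Agent.Y319.CT (exists_tw)
open Pool.Agent.Y703.CT
open Pool.Agent.E8helper20.CT3

theorem descK3 (hSEL : S_SEL3) (hREC : S_REC) (hLOC : S_LOC33) (hRAM : S_RAM3) (hUNR : S_UNR3)
    {J : Type} [Fintype J] [Nonempty J] {π : J → Ei} {e : J → ZMod 3} (hD : Dt π e)
    (hk : Ker3 π e) {i₀ : QB} {hi : i₀ ^ 2 + i₀ + 1 = 0}
    {u : QB} {a : GK i₀ → ZMod 3} (hT : Tw hi (3 * pD π e) u a) : ShK hi a ∧ MwK hi a := by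
  obtain ⟨j⟩ := (inferInstance : Nonempty J)
  have hne := three_pD_ne hD
  have hsel : Sel1 hi a := hSEL hREC hLOC hRAM hUNR J π e hD hk i₀ hi u a hT
  exact ⟨Pool.Agent.Y155.CT.t_SHK _ hne i₀ hi u a hT hsel,
    Pool.Agent.Y155.CT.t_MWK _ hne i₀ hi u a hT (a_ne3 j hD hT) hsel⟩

/-- The descent over `ℚ`: trivial kernel gives finitely many points and a trivial `3`-primary part
of the Tate-Shafarevich group. -/
theorem descQ3 (hSEL : S_SEL3) (hREC : S_REC) (hLOC : S_LOC33) (hRAM : S_RAM3) (hUNR : S_UNR3)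
    {D : ℕ} {J : Type} [Fintype J] [Nonempty J] {π : J → Ei} {e : J → ZMod 3}
    (hD : Dt π e) (hk : Ker3 π e) (hDp : (D : Ei) = pD π e ∨ (D : Ei) = -pD π e) :
    Finite (EQ (WD ((3 * D : ℕ) : ℤ))).toAffine.Point ∧
    padicValNat 3 (Nat.card (EQ (WD ((3 * D : ℕ) : ℤ))).toAffine.Point) = 1 ∧
    ∀ (n : ℕ) (x : Sha (EQ (WD ((3 * D : ℕ) : ℤ)))), 3 ^ n • x = 0 → x = 0 := by
  obtain ⟨i₀, hi⟩ := exists_i₀
  obtain ⟨u, a, hT⟩ := exists_tw hi (three_pD_ne hD)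
  obtain ⟨h1, h2⟩ := descK3 hSEL hREC hLOC hRAM hUNR hD hk hT
  obtain ⟨u', hT'⟩ := tw_int hDp hT
  exact Pool.Agent.Y692.CT.desq _ (int_ne hD hDp) i₀ hi u' a hT' h1 h2

/-- The order of the torsion subgroup. -/
theorem tors_val3 (ht : S_TORS) {D : ℕ} {J : Type} [Fintype J] [Nonempty J]
    {π : J → Ei} {e : J → ZMod 3} (hD : Dt π e)
    (hDp : (D : Ei) = pD π e ∨ (D : Ei) = -pD π e) :
    Nat.card (AddCommGroup.torsion (EQ (WD ((3 * D : ℕ) : ℤ))).toAffine.Point) ≠ 0 ∧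
    padicValNat 3
      (Nat.card (AddCommGroup.torsion (EQ (WD ((3 * D : ℕ) : ℤ))).toAffine.Point)) = 1 := by
  obtain ⟨j⟩ := (inferInstance : Nonempty J)
  obtain ⟨i₀, hi⟩ := exists_i₀
  obtain ⟨u, a, hT⟩ := exists_tw hi (three_pD_ne hD)
  obtain ⟨u', hT'⟩ := tw_int hDp hT
  obtain ⟨h1, h2⟩ := ht _ (int_ne hD hDp) i₀ hi u' a hT' (a_ne3 j hD hT)
  exact ⟨Nat.card_pos.ne', h2⟩

end Pool.Agent.E8helper85.CT3
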