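import Pool.Agent.E8helper85.CT3.Lem
import Pool.Agent.Y363.CT.SELC

/-!
# CT3-KLOC: kernel vectors give locally solvable characters
-/

set_option autoImplicit false

open scoped Classical

namespace Pool.Agent.E8helper85.CT3

open Pool.Agent.Y692.QS (Ei w nr)
open Pool.Agent.Y715.T.Gi Pool.Agent.Y715.T.Nr Pool.Agent.Y715.T.Df
open Pool.Agent.Y715.T.Sel (iota_ev norm_three_one)
open Pool.Agent.Y48.CT.SEL (pr0 prod_form)
open Pool.Agent.Y363.CT.SELC (not_lt_prod)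
open Pool.Agent.Y703.CT
open Pool.Agent.E8helper20.CT3

/-- **CT3-KLOC.** -/
theorem t_KLOC3 : S_KLOC3 := by
  intro hREC hSUP hFF hCUB hCUB33 hPT hRAMC J _ π e hD i₀ hi u a hTw v hv h hKc p _ ι
  have hB0 : (∏ j, π j ^ (e j * v j).val) ≠ 0 := pr0 hD _
  have hD0 : 3 * pD π e ≠ 0 := three_pD_ne hD
  by_cases hp3 : p = 3
  · subst hp3
    exact hPT i₀ hi _ _ hB0 hD0 u a hTw _ hKc 3 ι
      (hCUB33 inferInstance (ι i₀) (iota_sq' hi ι) _ _ (prod_form hD _)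
        (yy_ker hREC hSUP hD hv) (prod_form hD _))
  · by_cases hj : ∃ j, ‖ι (ev i₀ hi (π j))‖ < 1
    · obtain ⟨j, hj⟩ := hj
      exact hRAMC J π e hD i₀ hi u a hTw v _ hKc j (hv j) p ι hj
    · have hj' : ∀ j, ¬ ‖ev (ι i₀) (iota_sq' hi ι) (π j)‖ < 1 := by
        intro j h1
        apply hj
        refine ⟨j, ?_⟩
        rw [iota_ev]
        exact h1
      have h3 : ¬ ‖ev (ι i₀) (iota_sq' hi ι) (3 * pD π e)‖ < 1 := by
        have h4 : ¬ ‖ev (ι i₀) (iota_sq' hi ι) (pD π e)‖ < 1 := not_lt_prod _ hj' _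
        rw [map_mul, norm_mul, map_ofNat, norm_three_one hp3, one_mul]
        exact h4
      exact hPT i₀ hi _ _ hB0 hD0 u a hTw _ hKc p ι
        (hCUB hFF p hp3 (ι i₀) (iota_sq' hi ι) _ _ (not_lt_prod _ hj' _) h3)

end Pool.Agent.E8helper85.CT3
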