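import Mathlib
import Pool.Agent.E8helper20.CT3.Stm
import Pool.Agent.Y48.CT.SEL
import Pool.Agent.Y405.CT.Cri
import Pool.Agent.Y319.CT.CONVQ
import Pool.Agent.Y703.CT.Kloc

/-!
# Project CT3, task 5: auxiliary lemmas

The second digit `yy`, products of primes with a power of `lam`, characters of products with a
power of `3`.
-/

set_option autoImplicit false
set_option linter.unusedSectionVars false

open scoped Classical

namespace Pool.Agent.E8helper85.CT3

open Pool.Agent.Y692.QS (Ei w nr)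
open Pool.Agent.Y715.T.Rec (cs)
open Pool.Agent.Y715.T.RecG (Pq)
open Pool.Agent.Y715.T.Gi Pool.Agent.Y715.T.Nr Pool.Agent.Y715.T.Df Pool.Agent.Y715.T.Ell
open Pool.Agent.Y715.T.Sel (kc_mul kc_pow kc_exp kc_congr kc_cube kc_cancel kc_unit ex_root root_ne
  odd_of not_dvd_of_unr iota_ev norm_three_one)
open Pool.Agent.Y48.CT.SEL (pr0 p0 prod_form cf_prod not_lam not_dvd_prod not_assoc_lam)
open Pool.Agent.Y703.CT
open Pool.Agent.E8helper20.CT3

/-! ### the second digit -/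

lemma three_eq : (3 : Ei) = ⟨3, 0⟩ := by decide

lemma one_eq : (1 : Ei) = ⟨1, 0⟩ := by decide

lemma yy_one_add (x : Ei) : yy (1 + 3 * x) = ((x.im : ℤ) : ZMod 3) := by
  unfold yy
  have h1 : (1 + 3 * x : Ei).im = 3 * x.im := by
    rw [three_eq, one_eq]
    simp
  rw [h1, Int.mul_ediv_cancel_left _ (by norm_num)]

lemma exists_of_dvd {α : Ei} (h : (3 : Ei) ∣ α - 1) : ∃ x : Ei, α = 1 + 3 * x := by
  obtain ⟨x, hx⟩ := h
  exact ⟨x, by rw [← hx]; ring⟩

lemma yy_mul {α β : Ei} (hα : (3 : Ei) ∣ α - 1) (hβ : (3 : Ei) ∣ β - 1) :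
    yy (α * β) = yy α + yy β := by
  obtain ⟨x, rfl⟩ := exists_of_dvd hα
  obtain ⟨y, rfl⟩ := exists_of_dvd hβ
  have e1 : (1 + 3 * x) * (1 + 3 * y) = 1 + 3 * (x + y + 3 * (x * y)) := by ring
  rw [e1, yy_one_add, yy_one_add, yy_one_add]
  have h1 : (x + y + 3 * (x * y) : Ei).im = x.im + y.im + 3 * (x * y).im := by
    rw [three_eq]
    simp
  rw [h1]
  push_cast
  have h3 : (3 : ZMod 3) = 0 := by decide
  rw [h3, zero_mul, add_zero]

lemma yy_one : yy 1 = 0 := by
  have := yy_one_add 0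
  rw [mul_zero, add_zero] at this
  rw [this]
  simp

lemma three_mul {α β : Ei} (hα : (3 : Ei) ∣ α - 1) (hβ : (3 : Ei) ∣ β - 1) :
    (3 : Ei) ∣ α * β - 1 := by
  have e : α * β - 1 = (α - 1) * β + (β - 1) := by ring
  rw [e]
  exact dvd_add (Dvd.dvd.mul_right hα _) hβ

lemma three_pow {α : Ei} (hα : (3 : Ei) ∣ α - 1) (n : ℕ) : (3 : Ei) ∣ α ^ n - 1 := by
  induction n with
  | zero => simp
  | succ n ih =>
    rw [pow_succ]
    exact three_mul ih hα

lemma yy_pow {α : Ei} (hα : (3 : Ei) ∣ α - 1) (n : ℕ) : yy (α ^ n) = n * yy α := by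
  induction n with
  | zero => rw [pow_zero, yy_one, Nat.cast_zero, zero_mul]
  | succ n ih =>
    rw [pow_succ, yy_mul (three_pow hα n) hα, ih]
    push_cast
    ring

lemma yy_prod {K : Type} (S : Finset K) (f : K → Ei) (hf : ∀ k ∈ S, (3 : Ei) ∣ f k - 1) :
    (3 : Ei) ∣ ∏ k ∈ S, f k - 1 ∧ yy (∏ k ∈ S, f k) = ∑ k ∈ S, yy (f k) := by
  induction S using Finset.induction_on with
  | empty => simp [yy_one]
  | insert i S his ih =>
    obtain ⟨h1, h2⟩ := ih fun k hk => hf k (Finset.mem_insert_of_mem hk)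
    have h3 := hf i (Finset.mem_insert_self i S)
    rw [Finset.prod_insert his, Finset.sum_insert his]
    exact ⟨three_mul h3 h1, by rw [yy_mul h3 h1, h2]⟩

/-- the second digit of the element attached to a kernel vector is zero -/
lemma yy_ker (hREC : S_REC) (hSUP : S_SUP) {J : Type} [Fintype J] {π : J → Ei} {e : J → ZMod 3}
    (hD : Dt π e) {v : J → ZMod 3} (hv : KerV3 π e v) :
    yy (∏ j, π j ^ (e j * v j).val) = 0 := by
  rw [(yy_prod Finset.univ (fun j => π j ^ (e j * v j).val)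
    fun j _ => three_pow (hD.pq j).three _).2]
  have h1 : ∀ j, yy (π j ^ (e j * v j).val) = e j * (cs (π j) 3 * v j) := by
    intro j
    rw [yy_pow (hD.pq j).three, ZMod.natCast_zmod_val, hSUP (π j) (hD.pq j)]
    ring
  rw [Finset.sum_congr rfl fun j _ => h1 j]
  have h2 : ∀ j, e j * (cs (π j) 3 * v j) =
      ∑ i, e j * (e i * cs (π j) (π i) * (v i - v j)) := by
    intro j
    rw [← hv j, Finset.mul_sum]
  rw [Finset.sum_congr rfl fun j _ => h2 j]
  have h3 : ∑ j, ∑ i, e j * (e i * cs (π j) (π i) * (v i - v j)) =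
      -∑ j, ∑ i, e j * (e i * cs (π j) (π i) * (v i - v j)) := by
    conv_lhs => rw [Finset.sum_comm]
    rw [← Finset.sum_neg_distrib]
    refine Finset.sum_congr rfl fun i _ => ?_
    rw [← Finset.sum_neg_distrib]
    refine Finset.sum_congr rfl fun j _ => ?_
    by_cases hij : i = j
    · rw [hij, sub_self, mul_zero, mul_zero, neg_zero]
    · rw [hREC (π i) (π j) (hD.pq i) (hD.pq j) (hD.nd i j hij)]
      ring
  exact (by decide : ∀ x : ZMod 3, x = -x → x = 0) _ h3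

/-! ### products of primes -/

lemma cf_gen {K : Type} [Fintype K] {ρ : K → Ei} (hp : ∀ k, Prime (ρ k))
    (hnd : ∀ i k, i ≠ k → ¬ ρ k ∣ ρ i) (f : K → ZMod 3) : CF (∏ k, ρ k ^ (f k).val) := by
  have h00 : ∏ k, ρ k ^ (f k).val ≠ 0 :=
    Finset.prod_ne_zero_iff.2 fun k _ => pow_ne_zero _ (hp k).ne_zero
  have hndp : ∀ k, ¬ ρ k ∣ ∏ i ∈ Finset.univ.erase k, ρ i ^ (f i).val := by
    intro k
    rw [(hp k).dvd_finsetProd_iff]
    rintro ⟨i, hik, hd⟩
    exact hnd i k (Finset.ne_of_mem_erase hik) ((hp k).dvd_of_dvd_pow hd)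
  refine ⟨h00, fun d hd => ?_⟩
  by_contra hu
  have hd0 : d ≠ 0 := by
    rintro rfl
    rw [zero_pow three_ne_zero, zero_dvd_iff] at hd
    exact h00 hd
  obtain ⟨θ, hθi, hθd⟩ := WfDvdMonoid.exists_irreducible_factor hu hd0
  have hθ : Prime θ := hθi.prime
  have h1 : θ ^ 3 ∣ ∏ k, ρ k ^ (f k).val := (pow_dvd_pow_of_dvd hθd 3).trans hd
  have h2 : θ ∣ ∏ k, ρ k ^ (f k).val := (dvd_pow_self θ three_ne_zero).trans h1
  rw [hθ.dvd_finsetProd_iff] at h2
  obtain ⟨j, -, hj⟩ := h2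
  have h3 : Associated θ (ρ j) :=
    (hθ.dvd_prime_iff_associated (hp j)).1 (hθ.dvd_of_dvd_pow hj)
  have h4 : ρ j ^ 3 ∣ ∏ k, ρ k ^ (f k).val := (pow_dvd_pow_of_dvd h3.symm.dvd 3).trans h1
  rw [← Finset.mul_prod_erase Finset.univ (fun i => ρ i ^ (f i).val) (Finset.mem_univ j)] at h4
  have hlt : (f j).val < 3 := ZMod.val_lt _
  have e1 : ρ j ^ 3 = ρ j ^ (f j).val * ρ j ^ (3 - (f j).val) := by
    rw [← pow_add]
    congr 1
    omega
  rw [e1] at h4
  have h5 := (mul_dvd_mul_iff_left (pow_ne_zero _ (hp j).ne_zero)).1 h4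
  exact hndp j ((dvd_pow_self (ρ j) (by omega)).trans h5)

/-- the primes and `lam` -/
def opt {J : Type} (π : J → Ei) : Option J → Ei := fun o => o.elim lam π

section

variable {J : Type} [Fintype J] {π : J → Ei} {e : J → ZMod 3}
variable {i₀ : QB} {hi : i₀ ^ 2 + i₀ + 1 = 0}

lemma opt_prime (hD : Dt π e) (o : Option J) : Prime (opt π o) := by
  cases o with
  | none => exact prime_lam
  | some j => exact (hD.pq j).prime

lemma opt_nd (hD : Dt π e) (i k : Option J) (h : i ≠ k) : ¬ opt π k ∣ opt π i := by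
  intro hd
  have hass := ((opt_prime hD k).dvd_prime_iff_associated (opt_prime hD i)).1 hd
  cases k with
  | none =>
    cases i with
    | none => exact h rfl
    | some j => exact not_assoc_lam (hD.pq j) hass.symm
  | some j =>
    cases i with
    | none => exact not_assoc_lam (hD.pq j) hass
    | some l => exact hD.nd l j (fun hlj => h (by rw [hlj])) hd

/-- characters of products: if the product is a cube then the exponents of the primes are divisible
by three -/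
lemma exp0 (hD : Dt π e) (x : J → ℕ) (c : ℕ) {h : GK i₀ → ZMod 3}
    (hk : Kc hi ((∏ j, π j ^ x j) * 3 ^ c) h) (h0 : ∀ σ, h σ = 0) (j : J) :
    (x j : ZMod 3) = 0 := by
  have hx' : ∃ u : Ei, (u = 1 ∨ u = -1) ∧ (∏ j, π j ^ x j) * 3 ^ c =
      u * ∏ o : Option J, opt π o ^ ((o.elim (2 * c) x : ℕ)) := by
    refine ⟨(-1) ^ c, neg_one_pow_eq_or _ c, ?_⟩
    have e3 : (3 : Ei) = -1 * lam ^ 2 := by rw [lam_sq]; ring
    rw [Fintype.prod_option]
    show _ = (-1) ^ c * (lam ^ (2 * c) * ∏ i, π i ^ x i)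
    rw [e3, mul_pow, ← pow_mul]
    ring
  obtain ⟨u, hu, hux⟩ := hx'
  rw [hux] at hk
  have hne : ∀ o, opt π o ≠ 0 := fun o => (opt_prime hD o).ne_zero
  have h1 := kc_unit (Finset.prod_ne_zero_iff.2 fun o _ => pow_ne_zero _ (hne o)) hu hk
  have h2 : Kc hi (∏ o : Option J, opt π o ^
      (((o.elim (2 * c) x : ℕ) : ZMod 3)).val) h := by
    refine kc_exp hne (fun o => ?_) h1
    rw [ZMod.natCast_zmod_val]
  obtain ⟨p, hp, ι, hl⟩ := exists_emb hi (hD.pq j).prime
  have hp3 := odd_of hi ι (hD.pq j).prime hl (not_assoc_lam (hD.pq j))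
  by_contra hxj
  refine not_dvd_of_unr (cf_gen (opt_prime hD) (opt_nd hD)
    fun o => ((o.elim (2 * c) x : ℕ) : ZMod 3)) h2 hp3 ι (hD.pq j).prime hl
    (fun τ σ _ _ => h0 σ) ?_
  refine dvd_trans ?_ (Finset.dvd_prod_of_mem
    (fun o : Option J => opt π o ^ (((o.elim (2 * c) x : ℕ) : ZMod 3)).val)
    (Finset.mem_univ (some j)))
  refine dvd_pow_self (π j) ?_
  rw [Ne, ZMod.val_eq_zero]
  exact hxj

lemma three_pD_ne (hD : Dt π e) : 3 * pD π e ≠ 0 := by
  refine mul_ne_zero ?_ (pr0 hD _)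
  decide

/-- `3 D` is not a cube -/
lemma a_ne3 (j : J) (hD : Dt π e) {u : QB} {a : GK i₀ → ZMod 3}
    (hT : Tw hi (3 * pD π e) u a) : ∃ σ, a σ ≠ 0 := by
  by_contra hcon
  push Not at hcon
  have hb : Kc hi (3 * pD π e) (fun σ => -a σ) :=
    kc_of hi (root_ne (hi := hi) (three_pD_ne hD) hT.cube) hT.cube hT.act
  have e1 : 3 * pD π e = (∏ j, π j ^ (e j).val) * 3 ^ 1 := by
    unfold pD
    rw [pow_one, mul_comm]
  rw [e1] at hb
  have h1 := exp0 hD _ 1 hb (fun σ => by rw [hcon σ, neg_zero]) j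
  rw [ZMod.natCast_zmod_val] at h1
  exact hD.e0 j h1

lemma exists_i₀ : ∃ i₀ : QB, i₀ ^ 2 + i₀ + 1 = 0 := by
  obtain ⟨x, hx⟩ := IsAlgClosed.exists_root
    (Polynomial.X ^ 2 + Polynomial.X + 1 : Polynomial QB) (by
      have : (Polynomial.X ^ 2 + Polynomial.X + 1 : Polynomial QB).degree = 2 := by
        compute_degree!
      rw [this]
      norm_num)
  refine ⟨x, ?_⟩
  have h1 := hx
  rw [Polynomial.IsRoot] at h1
  simpa using h1

/-- the twist by the rational integer -/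
lemma tw_int {D : ℕ} (hDp : (D : Ei) = pD π e ∨ (D : Ei) = -pD π e) {u : QB}
    {a : GK i₀ → ZMod 3} (hT : Tw hi (3 * pD π e) u a) :
    ∃ u' : QB, Tw hi ((((3 * D : ℕ) : ℤ)) : Ei) u' a := by
  have e0 : ((((3 * D : ℕ) : ℤ)) : Ei) = 3 * (D : Ei) := by push_cast; ring
  rcases hDp with h | h
  · refine ⟨u, ?_⟩
    rw [e0, h]
    exact hT
  · refine ⟨-u, ?_⟩
    have e1 : ((((3 * D : ℕ) : ℤ)) : Ei) = -(3 * pD π e) := by rw [e0, h]; ring
    rw [e1]
    refine ⟨?_, fun σ => ?_⟩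
    · rw [Odd.neg_pow (by decide), hT.cube, map_neg]
    · rw [map_neg, hT.act σ]
      ring

lemma int_ne (hD : Dt π e) {D : ℕ} (hDp : (D : Ei) = pD π e ∨ (D : Ei) = -pD π e) :
    (((3 * D : ℕ) : ℤ)) ≠ 0 := by
  have hne : pD π e ≠ 0 := pr0 hD _
  have hD0 : D ≠ 0 := by
    rintro rfl
    rcases hDp with h | h
    · exact hne (by rw [← h]; simp)
    · exact hne (by rw [← neg_eq_zero, ← h]; simp)
  exact_mod_cast Nat.mul_ne_zero (by norm_num) hD0

end

end Pool.Agent.E8helper85.CT3
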